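import Mathlib

namespace Pool.Agent.Results.MP_c47b4a_al.FP

/-- The fiber product `{(u,v) : f u = g v}`. -/
def fiber {A B Q : Type} [Semigroup Q] (f : FreeSemigroup A →ₙ* Q) (g : FreeSemigroup B →ₙ* Q) :
    Subsemigroup (FreeSemigroup A × FreeSemigroup B) where
  carrier := {p | f p.1 = g p.2}
  mul_mem' := fun {a b} ha hb => by
    have ha : f a.1 = g a.2 := ha
    have hb : f b.1 = g b.2 := hb
    show f (a.1 * b.1) = g (a.2 * b.2)
    rw [map_mul, map_mul, ha, hb]

/-- Finitely generated semigroup. -/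
def FG (S : Type) [Semigroup S] : Prop :=
  ∃ X : Set S, X.Finite ∧ Subsemigroup.closure X = ⊤

/-- Finitely presented semigroup: isomorphic to `X⁺/ρ`, `X` finite, `ρ` finitely generated. -/
def FP (S : Type) [Semigroup S] : Prop :=
  ∃ (X : Type) (_ : Finite X) (R : Set (FreeSemigroup X × FreeSemigroup X)), R.Finite ∧
    Nonempty (S ≃* (conGen fun a b => (a, b) ∈ R).Quotient)

section core
variable {A B X M N : Type} [Monoid M] [Monoid N] (F : List A → M) (G : List B → M)
  (U : List X → List A) (V : List X → List B) (φ : List X → N) (K : ℕ)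

lemma len {A : Type} (U : List X → List A) (U0 : U [] = [])
    (U1 : ∀ a b, U (a ++ b) = U a ++ U b) (K : ℕ)
    (U2 : ∀ x, 1 ≤ (U [x]).length ∧ (U [x]).length ≤ K) (W : List X) :
    W.length ≤ (U W).length ∧ (U W).length ≤ K * W.length := by
  induction W with
  | nil => simp [U0]
  | cons x W ih =>
    have := U2 x
    rw [← List.singleton_append, U1]
    simp only [List.length_append, List.length_singleton]
    constructor <;> nlinarith [ih.1, ih.2]

theorem core (F1 : ∀ a b, F (a ++ b) = F a * F b) (G0 : G [] = 1)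
    (G1 : ∀ a b, G (a ++ b) = G a * G b) (U0 : U [] = []) (V0 : V [] = [])
    (U1 : ∀ a b, U (a ++ b) = U a ++ U b) (V1 : ∀ a b, V (a ++ b) = V a ++ V b)
    (U2 : ∀ x, 1 ≤ (U [x]).length ∧ (U [x]).length ≤ K)
    (V2 : ∀ x, 1 ≤ (V [x]).length ∧ (V [x]).length ≤ K)
    (hS : ∀ W, F (U W) = G (V W)) (gen : ∀ u v, F u = G v → ∃ W, U W = u ∧ V W = v)
    (D : List A → List B) (D1 : ∀ a b, D (a ++ b) = D a ++ D b) (hD : ∀ u, G (D u) = F u)
    (φ1 : ∀ a b, φ (a ++ b) = φ a * φ b)
    (base : ∀ W W', W.length ≤ 2 * K → U W = U W' → V W = V W' → φ W = φ W') :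
    ∀ W W', U W = U W' → V W = V W' → φ W = φ W' := by
  have nc : ∀ v w, G (w ++ v) = G v → ∀ u, F u = G v → w = [] := by
    intro v w h u hu
    by_contra hw
    have hw' : 1 ≤ w.length := List.length_pos_iff.2 hw
    have : ∀ k, ∃ v' : List B, k ≤ v'.length ∧ G v' = G v := by
      intro k
      induction k with
      | zero => exact ⟨v, Nat.zero_le _, rfl⟩
      | succ k ih =>
        obtain ⟨v', h1, h2⟩ := ih
        exact ⟨w ++ v', by rw [List.length_append]; omega, by rw [G1, h2, ← G1, h]⟩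
    obtain ⟨v', h1, h2⟩ := this (K * u.length + 1)
    obtain ⟨W, rfl, rfl⟩ := gen u v' (hu.trans h2.symm)
    have := Nat.mul_le_mul_left K (len U U0 U1 K U2 W).1
    have := (len V V0 V1 K V2 W).2
    omega
  have cut : ∀ (W : List X) (p : ℕ), ∃ W1 W2, W = W1 ++ W2 ∧ (U W1).length ≤ p + K ∧
      (p ≤ (U W1).length ∨ W2 = []) := by
    intro W
    induction W with
    | nil => intro p; exact ⟨[], [], rfl, by simp [U0], Or.inr rfl⟩
    | cons x W ih =>
      intro p
      by_cases h : p ≤ (U [x]).length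
      · exact ⟨[x], W, rfl, (U2 x).2.trans (Nat.le_add_left _ _), Or.inl h⟩
      · obtain ⟨W1, W2, rfl, h1, h2⟩ := ih (p - (U [x]).length)
        refine ⟨[x] ++ W1, W2, rfl, ?_, h2.imp (fun h2 => ?_) id⟩ <;>
          rw [U1, List.length_append] <;> omega
  have loc : ∀ α β P, F α * F P = G β * F P →
      ∃ P2 P1, P = P2 ++ P1 ∧ P2.length ≤ K ∧ F α * F P2 = G β * F P2 := by
    intro α β P h
    obtain ⟨W, hU, hV⟩ := gen (α ++ P) (β ++ D P) (by rw [F1, G1, hD, h])
    obtain ⟨W1, W2, rfl, h1, h2⟩ := cut W α.length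
    rw [U1] at hU
    rw [V1] at hV
    have h3 : α.length ≤ (U W1).length := by
      rcases h2 with h2 | rfl
      · exact h2
      · rw [U0, List.append_nil] at hU; rw [hU]; simp
    obtain ⟨P2, hP2⟩ : α <+: U W1 := List.prefix_of_prefix_length_le
      ⟨P, hU.symm⟩ (List.prefix_append _ _) h3
    rw [← hP2, List.append_assoc, List.append_cancel_left_eq] at hU
    refine ⟨P2, U W2, hU.symm, by rw [← hP2, List.length_append] at h1; omega, ?_⟩
    rw [← hU, D1, ← List.append_assoc] at hV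
    have h4 : V W2 = D (U W2) := by
      rcases List.append_eq_append_iff.1 hV with ⟨w, -, e⟩ | ⟨w, -, e⟩
      · have := nc (D (U W2)) w (by rw [← e, hD, hS]) (U W2) (hD _).symm
        rw [e, this, List.nil_append]
      · have := nc (V W2) w (by rw [← e, hD, hS]) (U W2) (hS _)
        rw [e, this, List.nil_append]
    rw [h4, List.append_cancel_right_eq] at hV
    rw [← F1, hP2, hS, hV, G1, hD]
  intro W W'
  induction W' generalizing W with
  | nil =>
    intro h1 h2
    have := (len U U0 U1 K U2 W).1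
    rw [h1, U0] at this
    exact base _ _ (this.trans (Nat.zero_le _)) h1 h2
  | cons x W' ih =>
    intro h1 h2
    by_cases hl : W.length ≤ 2 * K
    · exact base _ _ hl h1 h2
    obtain ⟨W1, W2, W3, rfl, l1, l2⟩ : ∃ W1 W2 W3 : List X, W = W1 ++ (W2 ++ W3) ∧
        W1.length = K ∧ W2.length = K :=
      ⟨W.take K, (W.drop K).take K, (W.drop K).drop K, by simp, by simp; omega, by simp; omega⟩
    rw [← List.singleton_append] at h1 h2 ⊢
    rw [U1, U1 [x]] at h1
    rw [V1, V1 [x]] at h2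
    obtain ⟨α, hα⟩ : U [x] <+: U W1 := List.prefix_of_prefix_length_le ⟨_, h1.symm⟩
      (List.prefix_append _ _) ((U2 x).2.trans (l1 ▸ (len U U0 U1 K U2 W1).1))
    obtain ⟨β, hβ⟩ : V [x] <+: V W1 := List.prefix_of_prefix_length_le ⟨_, h2.symm⟩
      (List.prefix_append _ _) ((V2 x).2.trans (l1 ▸ (len V V0 V1 K V2 W1).1))
    rw [← hα, List.append_assoc, List.append_cancel_left_eq] at h1
    rw [← hβ, List.append_assoc, List.append_cancel_left_eq] at h2
    obtain ⟨P2, P1, e, l3, h3⟩ := loc α β (U (W2 ++ W3)) (by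
      rw [← F1, h1, hS, ← h2, G1, hS])
    rw [U1] at e
    obtain ⟨γ, hγ⟩ : P2 <+: U W2 := List.prefix_of_prefix_length_le ⟨_, e.symm⟩
      (List.prefix_append _ _) (l3.trans (l2 ▸ (len U U0 U1 K U2 W2).1))
    obtain ⟨Z, z1, z2⟩ := gen (α ++ U W2) (β ++ V W2) (by
      rw [F1, G1, ← hS, ← hγ, F1, ← mul_assoc, h3, mul_assoc])
    have b1 := base (W1 ++ W2) ([x] ++ Z) (by rw [List.length_append]; omega)
      (by rw [U1, U1, z1, ← hα, List.append_assoc]) (by rw [V1, V1, z2, ← hβ, List.append_assoc])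
    have b2 := ih (Z ++ W3) (by rw [U1, z1, List.append_assoc, ← U1, h1])
      (by rw [V1, z2, List.append_assoc, ← V1, h2])
    rw [← List.append_assoc, φ1, b1, φ1, φ1, mul_assoc, ← φ1, b2]
end core

def tl {A : Type} (a : FreeSemigroup A) : List A := a.head :: a.tail

lemma tl_mul {A : Type} (a b : FreeSemigroup A) : tl (a * b) = tl a ++ tl b := rfl

lemma tl_inj {A : Type} {a b : FreeSemigroup A} (h : tl a = tl b) : a = b := by
  cases a; cases b; simp only [tl, List.cons.injEq] at h; obtain ⟨rfl, rfl⟩ := h; rfl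

def ext {A Q : Type} [Semigroup Q] (f : FreeSemigroup A →ₙ* Q) (l : List A) : WithOne Q :=
  (l.map fun a => (f (FreeSemigroup.of a) : WithOne Q)).prod

lemma ext_app {A Q : Type} [Semigroup Q] (f : FreeSemigroup A →ₙ* Q) (a b : List A) :
    ext f (a ++ b) = ext f a * ext f b := by simp [ext]

lemma ext_tl {A Q : Type} [Semigroup Q] (f : FreeSemigroup A →ₙ* Q) (a : FreeSemigroup A) :
    ext f (tl a) = f a := by
  induction a using FreeSemigroup.recOnMul with
  | ih1 x => simp [ext, tl]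
  | ih2 x y h1 h2 => rw [tl_mul, ext_app, h1, h2, map_mul, WithOne.coe_mul]

theorem result (A B Q : Type) [Finite A] [Finite B] [Semigroup Q]
    (f : FreeSemigroup A →ₙ* Q) (g : FreeSemigroup B →ₙ* Q)
    (hf : Function.Surjective f) (hg : Function.Surjective g) (h : FG (fiber f g)) :
    FP (fiber f g) := by
  classical
  obtain ⟨X, hX, hc⟩ := h
  haveI : Finite X := hX
  let π : FreeSemigroup X →ₙ* fiber f g := FreeSemigroup.lift Subtype.val
  have hπ : Function.Surjective π := by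
    intro s
    have hs : s ∈ Subsemigroup.closure X := hc ▸ Subsemigroup.mem_top s
    induction hs using Subsemigroup.closure_induction with
    | mem x hx => exact ⟨FreeSemigroup.of ⟨x, hx⟩, rfl⟩
    | mul x y _ _ h1 h2 =>
      obtain ⟨a, rfl⟩ := h1; obtain ⟨b, rfl⟩ := h2; exact ⟨a * b, map_mul _ _ _⟩
  obtain ⟨K, hK⟩ := (Set.finite_range fun x : X =>
    (tl x.1.1.1).length + (tl x.1.1.2).length).bddAbove
  have hK' : ∀ x : X, (tl x.1.1.1).length + (tl x.1.1.2).length ≤ K := fun x => hK ⟨x, rfl⟩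
  let R : Set (FreeSemigroup X × FreeSemigroup X) :=
    {p | (tl p.1).length ≤ 2 * K ∧ (tl p.2).length ≤ K * (2 * K) ∧ π p.1 = π p.2}
  have fin : ∀ n, {a : FreeSemigroup X | (tl a).length ≤ n}.Finite := fun n =>
    (List.finite_length_le X n).preimage (f := tl) fun _ _ _ _ => tl_inj
  let c := conGen fun a b => (a, b) ∈ R
  let U : List X → List A := fun W => W.flatMap fun x => tl x.1.1.1
  let V : List X → List B := fun W => W.flatMap fun x => tl x.1.1.2
  have U1 : ∀ a b, U (a ++ b) = U a ++ U b := fun a b => List.flatMap_append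
  have V1 : ∀ a b, V (a ++ b) = V a ++ V b := fun a b => List.flatMap_append
  have U2 : ∀ x, 1 ≤ (U [x]).length ∧ (U [x]).length ≤ K := fun x => by
    have := hK' x; simp only [U, List.flatMap_singleton]; exact ⟨by simp [tl], by omega⟩
  have V2 : ∀ x, 1 ≤ (V [x]).length ∧ (V [x]).length ≤ K := fun x => by
    have := hK' x; simp only [V, List.flatMap_singleton]; exact ⟨by simp [tl], by omega⟩
  have hUV : ∀ a, U (tl a) = tl (π a).1.1 ∧ V (tl a) = tl (π a).1.2 := fun a => by
    induction a using FreeSemigroup.recOnMul with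
    | ih1 x => simp [U, V, tl, π]
    | ih2 x y h1 h2 => rw [tl_mul, U1, V1, h1.1, h1.2, h2.1, h2.2, map_mul]; exact ⟨rfl, rfl⟩
  choose δ hδ using fun a : A => hg (f (FreeSemigroup.of a))
  have key := core (ext f) (ext g) U V (ext c.mkMulHom) K (ext_app f) rfl (ext_app g) rfl rfl
    U1 V1 U2 V2 (fun W => ?_) (fun u v e => ?_) (fun u => u.flatMap fun a => tl (δ a))
    (fun a b => List.flatMap_append) (fun u => ?_) (ext_app _) (fun W W' l h1 h2 => ?_)
  · have hk : c = Con.ker π := by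
      refine le_antisymm (Con.conGen_le.2 fun a b hab => hab.2.2) fun a b hab => ?_
      have hab : π a = π b := hab
      have := key (tl a) (tl b) (by rw [(hUV a).1, (hUV b).1, hab])
        (by rw [(hUV a).2, (hUV b).2, hab])
      rw [ext_tl, ext_tl, WithOne.coe_inj] at this
      exact c.eq.1 this
    refine ⟨X, inferInstance, R, ((fin (2 * K)).prod (fin (K * (2 * K)))).subset
      fun p hp => ⟨hp.1, hp.2.1⟩, ⟨MulEquiv.symm ?_⟩⟩
    show c.Quotient ≃* _
    refine MulEquiv.ofBijective (F := c.Quotient →ₙ* fiber f g)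
      ⟨Quotient.lift π fun a b hab => (hk ▸ hab : Con.ker π a b), ?_⟩ ⟨?_, fun s => ?_⟩
    · rintro ⟨a⟩ ⟨b⟩; exact map_mul π a b
    · rintro ⟨a⟩ ⟨b⟩ e
      exact Quotient.sound (show c a b from hk ▸ (e : Con.ker π a b))
    · obtain ⟨a, rfl⟩ := hπ s; exact ⟨a, rfl⟩
  · rcases W with _ | ⟨x, W⟩
    · rfl
    · have := hUV ⟨x, W⟩
      change U (x :: W) = _ ∧ V (x :: W) = _ at this
      rw [this.1, this.2, ext_tl, ext_tl, (π ⟨x, W⟩).2]
  · rcases u with _ | ⟨a, u⟩ <;> rcases v with _ | ⟨b, v⟩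
    · exact ⟨[], rfl, rfl⟩
    · exact absurd (e.trans (ext_tl g ⟨b, v⟩)) WithOne.one_ne_coe
    · exact absurd (e.symm.trans (ext_tl f ⟨a, u⟩)) WithOne.one_ne_coe
    · have e' : f ⟨a, u⟩ = g ⟨b, v⟩ :=
        WithOne.coe_inj.1 ((ext_tl f ⟨a, u⟩).symm.trans (e.trans (ext_tl g ⟨b, v⟩)))
      obtain ⟨w, hw⟩ := hπ ⟨(⟨a, u⟩, ⟨b, v⟩), e'⟩
      exact ⟨tl w, by rw [(hUV w).1, hw]; rfl, by rw [(hUV w).2, hw]; rfl⟩
  · induction u with
    | nil => rfl
    | cons a u ih =>
      rw [List.flatMap_cons, ext_app, ih, ext_tl, hδ, ← List.singleton_append, ext_app]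
      simp [ext]
  · have l1 := len U rfl U1 K U2 W
    have l2 := len U rfl U1 K U2 W'
    rw [← h1] at l2
    rcases W with _ | ⟨x, W⟩ <;> rcases W' with _ | ⟨y, W'⟩
    · rfl
    · simp [U] at l2
    · rw [h1] at l1; simp [U] at l1
    · refine (ext_tl _ ⟨x, W⟩).trans (Eq.trans ?_ (ext_tl _ ⟨y, W'⟩).symm)
      congr 1
      refine c.eq.2 (ConGen.Rel.of _ _ ⟨l, l2.1.trans (l1.2.trans (Nat.mul_le_mul_left _ l)), ?_⟩)
      exact Subtype.ext (Prod.ext (tl_inj ((hUV ⟨x, W⟩).1.symm.trans (h1.trans (hUV ⟨y, W'⟩).1)))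
        (tl_inj ((hUV ⟨x, W⟩).2.symm.trans (h2.trans (hUV ⟨y, W'⟩).2))))

end Pool.Agent.Results.MP_c47b4a_al.FP
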